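import Pool.Agent.Helper52.BP.Sheet

set_option autoImplicit false

namespace Pool.Helper52.BP

open Finset

namespace S38

theorem kk_spec {n : ℕ} (hn : 64 ≤ n) : 5 ≤ kk n ∧ 2 * 2 ^ kk n ≤ n ∧ n < 4 * 2 ^ kk n := by
  unfold kk
  have h1 : 2 ^ Nat.log 2 n ≤ n := Nat.pow_log_le_self 2 (by omega)
  have h2 : n < 2 ^ (Nat.log 2 n + 1) := Nat.lt_pow_succ_log_self (by norm_num) n
  have h3 : 6 ≤ Nat.log 2 n := by
    have h4 : Nat.log 2 64 ≤ Nat.log 2 n := Nat.log_mono_right hn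
    have h5 : Nat.log 2 64 = 6 := by
      rw [show (64 : ℕ) = 2 ^ 6 by norm_num, Nat.log_pow (by norm_num)]
    omega
  obtain ⟨k, hk⟩ : ∃ k, Nat.log 2 n = k + 1 := ⟨Nat.log 2 n - 1, by omega⟩
  rw [hk] at h1 h2 h3 ⊢
  rw [Nat.add_sub_cancel]
  refine ⟨by omega, ?_, ?_⟩
  · rw [pow_succ] at h1
    omega
  · rw [pow_succ, pow_succ] at h2
    omega

theorem na_pos {n : ℕ} (hn : 64 ≤ n) (W : ℕ → Finset (Fin n)) (m : ℕ) : 1 ≤ na W m := by
  unfold na
  refine Finset.card_pos.2 (Finset.Nonempty.image ⟨⟨0, by omega⟩, Finset.mem_univ _⟩ _)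

/-- the consequence of COMB -/
theorem logb_bound {V m q s : ℕ} (hV : 2 ≤ V) (hm : 1 ≤ m)
    (h : 1 ≤ 3 * (V : ℝ) ^ m * (1 - (1 / 4 : ℝ) ^ q) ^ s) :
    (s : ℝ) ≤ 3 * m * Real.logb 2 V * 4 ^ q := by
  have hV0 : (2 : ℝ) ≤ V := by exact_mod_cast hV
  have hVp : (0 : ℝ) < V := by linarith
  have hlog2 : 0 < Real.log 2 := Real.log_pos (by norm_num)
  have hlog2' : Real.log 2 < 1 := by
    have := Real.log_two_lt_d9
    linarith
  have hlV : Real.log 2 ≤ Real.log V := Real.log_le_log (by norm_num) hV0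
  have hL : Real.log V ≤ Real.logb 2 V := by
    unfold Real.logb
    rw [le_div_iff₀ hlog2]
    nlinarith
  set x : ℝ := (1 / 4 : ℝ) ^ q with hx
  have hx0 : 0 < x := by positivity
  have hx1 : x ≤ 1 := by
    rw [hx]
    exact pow_le_one₀ (by norm_num) (by norm_num)
  have h1 : (1 - x) ^ s ≤ Real.exp (-(x * s)) := by
    have h2 : (1 - x) ^ s ≤ (Real.exp (-x)) ^ s :=
      pow_le_pow_left₀ (by linarith) (Real.one_sub_le_exp_neg x) s
    rw [← Real.exp_nat_mul] at h2
    rw [show -(x * (s : ℝ)) = (s : ℝ) * -x by ring]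
    exact h2
  have h3 : (1 : ℝ) ≤ 3 * (V : ℝ) ^ m * Real.exp (-(x * s)) :=
    h.trans (mul_le_mul_of_nonneg_left h1 (by positivity))
  have h4 : Real.exp (x * s) ≤ 3 * (V : ℝ) ^ m := by
    have h5 : Real.exp (x * s) * 1 ≤ Real.exp (x * s) * (3 * (V : ℝ) ^ m * Real.exp (-(x * s))) :=
      mul_le_mul_of_nonneg_left h3 (Real.exp_pos _).le
    rw [Real.exp_neg] at h5
    have h6 : Real.exp (x * s) ≠ 0 := (Real.exp_pos _).ne'
    field_simp at h5
    linarith
  have h7 : x * s ≤ Real.log 3 + m * Real.log V := by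
    have h8 := (Real.le_log_iff_exp_le (by positivity)).2 h4
    rw [Real.log_mul (by norm_num) (by positivity), Real.log_pow] at h8
    exact h8
  have h9 : Real.log 3 ≤ 2 * Real.log V := by
    have h10 : Real.log 3 ≤ Real.log 4 := Real.log_le_log (by norm_num) (by norm_num)
    have h11 : Real.log 4 = 2 * Real.log 2 := by
      rw [show (4 : ℝ) = 2 ^ 2 by norm_num, Real.log_pow]
      norm_num
    linarith
  have hm' : (1 : ℝ) ≤ m := by exact_mod_cast hm
  have h12 : x * s ≤ 3 * m * Real.logb 2 V := by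
    have h13 : Real.log 3 + m * Real.log V ≤ 3 * m * Real.log V := by nlinarith
    have h14 : 3 * (m : ℝ) * Real.log V ≤ 3 * m * Real.logb 2 V :=
      mul_le_mul_of_nonneg_left hL (by positivity)
    linarith
  have h15 : x * 4 ^ q = 1 := by
    rw [hx, one_div, inv_pow, inv_mul_cancel₀ (by positivity)]
  calc (s : ℝ) = (x * s) * 4 ^ q := by
        rw [mul_right_comm, h15, one_mul]
    _ ≤ 3 * m * Real.logb 2 V * 4 ^ q := mul_le_mul_of_nonneg_right h12 (by positivity)

end S38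

open S38

/-- row FIN1 -/
theorem st_FIN1 (hA : ST_ATOM) (hE : ST_EMB) (hC : ST_COMB) (hT : ST_TW) : ST_FIN1 := by
  intro n V T R q B W hn hR hRn hq1 hqk hnw hcomp hreads hW
  obtain ⟨hk5, hN1, hN2⟩ := kk_spec hn
  have h8R : 0 < 8 * R := by omega
  have hw1 : 1 ≤ n / (8 * R) := (Nat.le_div_iff_mul_le h8R).2 (by omega)
  have hwn : 8 * R * (n / (8 * R)) ≤ n := Nat.mul_div_le n (8 * R)
  have hwn2 : n ≤ 16 * R * (n / (8 * R)) := by
    have h1 : n < 8 * R * (n / (8 * R) + 1) := Nat.lt_mul_div_succ n h8R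
    have h2 : 8 * R * (n / (8 * R) + 1) ≤ 8 * R * (2 * (n / (8 * R))) :=
      Nat.mul_le_mul_left _ (by omega)
    calc n ≤ 8 * R * (2 * (n / (8 * R))) := (h1.trans_le h2).le
      _ = 16 * R * (n / (8 * R)) := by ring
  have h4w : 4 * (n / (8 * R)) ≤ n := by
    refine le_trans ?_ hwn
    refine Nat.mul_le_mul_right _ (by omega)
  obtain ⟨hTw, hV⟩ := hT n V T (n / (8 * R)) B W hn hw1 h4w hcomp hreads hW
  have ha1 : 1 ≤ na W (T / (n / (8 * R)) + 1) := na_pos hn W _
  have hTm : T ≤ (T / (n / (8 * R)) + 1) * (n / (8 * R)) := by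
    have h1 := Nat.div_add_mod T (n / (8 * R))
    have h2 := Nat.mod_lt T (show 0 < n / (8 * R) by omega)
    rw [add_mul, one_mul, mul_comm (T / (n / (8 * R)))]
    omega
  have hmT : (T / (n / (8 * R)) + 1) * (n / (8 * R)) ≤ 2 * T := by
    have h1 := Nat.div_mul_le_self T (n / (8 * R))
    rw [add_mul, one_mul]
    omega
  have hm1 : 1 ≤ T / (n / (8 * R)) + 1 := Nat.le_add_left 1 _
  have hA' := fun s => hA n (T / (n / (8 * R)) + 1) (2 ^ kk n) R q s W (by omega) (by omega) hm1 hq1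
    (fun i _ => by
      have h1 : 2 * R * (W i).card ≤ 2 * R * (n / (8 * R)) := Nat.mul_le_mul_left _ (hW i)
      have h2 : 4 * (2 * R * (n / (8 * R))) = 8 * R * (n / (8 * R)) := by ring
      omega) hnw
  have hC' := fun s => hC n V T (n / (8 * R)) (T / (n / (8 * R)) + 1) q s B W
  generalize n / (8 * R) = w at *
  generalize T / w + 1 = m at *
  generalize na W m = a at *
  generalize hkdef : kk n = k at *
  -- real facts
  have hnR : (64 : ℝ) ≤ n := by exact_mod_cast hn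
  have hVR : (2 : ℝ) ≤ V := by exact_mod_cast hV
  have hL1 : (1 : ℝ) ≤ Real.logb 2 V := by
    rw [Real.le_logb_iff_rpow_le (by norm_num) (by linarith)]
    simpa using hVR
  have hkl : (k : ℝ) ≤ Real.logb 2 n := by
    have h1 : ((Nat.log 2 n : ℕ) : ℝ) ≤ Real.logb 2 n := by
      have := Real.natLog_le_logb n 2
      exact_mod_cast this
    have h2 : k ≤ Nat.log 2 n := by
      rw [← hkdef]
      exact Nat.sub_le _ _
    have h3 : (k : ℝ) ≤ (Nat.log 2 n : ℕ) := by exact_mod_cast h2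
    linarith
  have hk5R : (5 : ℝ) ≤ k := by exact_mod_cast hk5
  have hN2R : (n : ℝ) ≤ 4 * 2 ^ k := by exact_mod_cast hN2.le
  have haR : (1 : ℝ) ≤ a := by exact_mod_cast ha1
  have hmR : (1 : ℝ) ≤ m := by exact_mod_cast hm1
  have hRR : (2 : ℝ) ≤ R := by exact_mod_cast hR
  have hTR : (n : ℝ) ≤ 16 * R * T := by
    have : n ≤ 16 * R * T := hwn2.trans (Nat.mul_le_mul_left _ hTw)
    exact_mod_cast this
  have hmnT : (m : ℝ) * n ≤ 32 * R * T := by
    have : m * n ≤ 32 * R * T := by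
      calc m * n ≤ m * (16 * R * w) := Nat.mul_le_mul_left _ hwn2
        _ = 16 * R * (m * w) := by ring
        _ ≤ 16 * R * (2 * T) := Nat.mul_le_mul_left _ hmT
        _ = 32 * R * T := by ring
    exact_mod_cast this
  have hT0 : (0 : ℝ) ≤ T := Nat.cast_nonneg T
  have h4q : (1 : ℝ) ≤ 4 ^ q := one_le_pow₀ (by norm_num)
  have hℓ : (k : ℝ) ^ 2 ≤ Real.logb 2 n ^ 2 := pow_le_pow_left₀ (by linarith) hkl 2
  -- it is enough to have the bound with `k` in place of the logarithm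
  have hmain : (n : ℝ) ^ 2 ≤ 1536 * ((T : ℝ) * Real.logb 2 V * (a : ℝ)) *
      ((R : ℝ) * 4 ^ q * (k : ℝ) ^ 2) := by
    obtain ⟨s, hs⟩ : ∃ s, s = 2 ^ k / (2 * a * k ^ 2) := ⟨_, rfl⟩
    have hden : 0 < 2 * a * k ^ 2 := by positivity
    have hs1 : s * (2 * a * k ^ 2) ≤ 2 ^ k := by
      rw [hs]
      exact Nat.div_mul_le_self _ _
    have hs2 : 2 ^ k < (s + 1) * (2 * a * k ^ 2) := by
      rw [hs, mul_comm]
      exact Nat.lt_mul_div_succ _ hden
    have hs2R : (2 : ℝ) ^ k ≤ (s + 1) * (2 * a * k ^ 2) := by exact_mod_cast hs2.le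
    by_cases hs0 : s = 0
    · rw [hs0] at hs2R
      have h1 : (n : ℝ) ≤ 8 * (a * k ^ 2) := by
        have : (n : ℝ) ≤ 4 * ((((0 : ℕ) : ℝ) + 1) * (2 * a * k ^ 2)) := by linarith
        rw [Nat.cast_zero] at this
        linarith
      have h2 : (n : ℝ) * n ≤ (16 * R * T) * (8 * (a * k ^ 2)) :=
        mul_le_mul hTR h1 (by linarith) (by positivity)
      have h3 : (1 : ℝ) ≤ Real.logb 2 V * 4 ^ q := by nlinarith
      have h5 : (R : ℝ) * T * (a * k ^ 2) * 1 ≤ (R : ℝ) * T * (a * k ^ 2) *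
          (Real.logb 2 V * 4 ^ q) := mul_le_mul_of_nonneg_left h3 (by positivity)
      have h6 : 1536 * ((T : ℝ) * Real.logb 2 V * (a : ℝ)) * ((R : ℝ) * 4 ^ q * (k : ℝ) ^ 2) =
          1536 * ((R : ℝ) * T * (a * k ^ 2) * (Real.logb 2 V * 4 ^ q)) := by ring
      have h7 : (0 : ℝ) ≤ (R : ℝ) * T * (a * k ^ 2) := by positivity
      rw [h6]
      nlinarith
    · have hs3 : 1 ≤ s := by omega
      have hqs : q * s * (2 * a) ≤ 2 ^ k := by
        calc q * s * (2 * a) ≤ k * s * (2 * a) :=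
              Nat.mul_le_mul_right _ (Nat.mul_le_mul_right _ hqk)
          _ ≤ k ^ 2 * s * (2 * a) := by
              refine Nat.mul_le_mul_right _ (Nat.mul_le_mul_right _ ?_)
              rw [pow_two]
              exact Nat.le_mul_of_pos_left k (by omega)
          _ = s * (2 * a * k ^ 2) := by ring
          _ ≤ 2 ^ k := hs1
      obtain ⟨e, jj, heinj, heN, heW⟩ := hA' s hqs
      have hsL : s ≤ LL n := by
        unfold LL
        rw [hkdef, Nat.le_div_iff_mul_le (by positivity)]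
        refine le_trans ?_ hs1
        refine Nat.mul_le_mul_left _ ?_
        exact Nat.le_mul_of_pos_left _ (by omega)
      have hqs2 : q * s < 2 ^ k := by
        have h1 : q * s * 2 ≤ q * s * (2 * a) := Nat.mul_le_mul_left _ (by omega)
        have h2 : 0 < q * s := Nat.mul_pos (by omega) (by omega)
        omega
      obtain ⟨io, hio1, hio2⟩ := hE n q s e hn hq1
        (by rw [hkdef]; exact hqk) hsL (by rw [hkdef]; exact hqs2) heinj
        (fun p => by rw [hkdef]; exact heN p)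
      have h1 := hC' s e io jj hq1 hw1 hm1 hTm hreads heW hio1
        (fun u => by rw [hcomp (io u)]; exact hio2 u)
      have h2 := logb_bound hV hm1 h1
      have hs3R : (1 : ℝ) ≤ s := by exact_mod_cast hs3
      have h3 : (2 : ℝ) ^ k ≤ 2 * s * (2 * a * k ^ 2) := by
        refine hs2R.trans (mul_le_mul_of_nonneg_right (by linarith) (by positivity))
      have h4 : (n : ℝ) ≤ 16 * s * (a * k ^ 2) := by
        have : (n : ℝ) ≤ 4 * (2 * s * (2 * a * k ^ 2)) := by linarith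
        linarith
      have h5 : (16 * (s : ℝ)) * (a * k ^ 2) ≤
          (16 * (3 * m * Real.logb 2 V * 4 ^ q)) * (a * k ^ 2) :=
        mul_le_mul_of_nonneg_right (by linarith) (by positivity)
      have h6 : (n : ℝ) ≤ 48 * m * (4 ^ q * Real.logb 2 V * (a * k ^ 2)) := by
        have := h4.trans h5
        linarith
      have h7 : (n : ℝ) * n ≤ (48 * m * (4 ^ q * Real.logb 2 V * (a * k ^ 2))) * n :=
        mul_le_mul_of_nonneg_right h6 (by linarith)
      have h8 : (48 * (m : ℝ) * (4 ^ q * Real.logb 2 V * (a * k ^ 2))) * n =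
          48 * (4 ^ q * Real.logb 2 V * (a * k ^ 2)) * (m * n) := by ring
      have h9 : 48 * ((4 : ℝ) ^ q * Real.logb 2 V * (a * k ^ 2)) * (m * n) ≤
          48 * (4 ^ q * Real.logb 2 V * (a * k ^ 2)) * (32 * R * T) :=
        mul_le_mul_of_nonneg_left hmnT (by positivity)
      calc (n : ℝ) ^ 2 = n * n := by ring
        _ ≤ 48 * (4 ^ q * Real.logb 2 V * (a * k ^ 2)) * (32 * R * T) := by
            rw [h8] at h7
            exact h7.trans h9
        _ = _ := by ring
  refine hmain.trans ?_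
  have hpos : (0 : ℝ) ≤ 1536 * ((T : ℝ) * Real.logb 2 V * (a : ℝ)) := by positivity
  refine mul_le_mul_of_nonneg_left ?_ hpos
  exact mul_le_mul_of_nonneg_left hℓ (by positivity)

end Pool.Helper52.BP
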