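import Pool.Agent.Helper52.BP.Sheet2
import Pool.Agent.Helper38.BP.FIN1

set_option autoImplicit false

namespace Pool.Helper52.BP

open Finset

namespace S38

theorem naF_pos {n : ℕ} (hn : 64 ≤ n) (F : Finset (Finset (Fin n))) : 1 ≤ naF F := by
  unfold naF
  exact Finset.card_pos.2 (Finset.Nonempty.image ⟨⟨0, by omega⟩, Finset.mem_univ _⟩ _)

/-- the consequence of COMB2 -/
theorem logb_bound2 {V m q k s : ℕ} (hV : 2 ≤ V) (hm : 1 ≤ m) (hq : 1 ≤ q) (hqk : q ≤ k)
    (hk : 5 ≤ k) (h : 1 ≤ 3 * ((V : ℝ) * (q : ℝ)) ^ m * (1 - (1 / 4 : ℝ) ^ q) ^ s) :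
    (s : ℝ) ≤ 2 * k * m * Real.logb 2 V * 4 ^ q := by
  have hV0 : (2 : ℝ) ≤ V := by exact_mod_cast hV
  have hVp : (0 : ℝ) < V := by linarith
  have hqR : (1 : ℝ) ≤ q := by exact_mod_cast hq
  have hqp : (0 : ℝ) < q := by linarith
  have hqkR : (q : ℝ) ≤ k := by exact_mod_cast hqk
  have hkR : (5 : ℝ) ≤ k := by exact_mod_cast hk
  have hlog2 : 0 < Real.log 2 := Real.log_pos (by norm_num)
  have hlog2' : Real.log 2 < 7 / 10 := by
    have := Real.log_two_lt_d9
    linarith
  have hlV : Real.log 2 ≤ Real.log V := Real.log_le_log (by norm_num) hV0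
  have hL : Real.log V = Real.logb 2 V * Real.log 2 := by
    unfold Real.logb
    rw [div_mul_cancel₀ _ hlog2.ne']
  have hL1 : (1 : ℝ) ≤ Real.logb 2 V := by
    rw [Real.le_logb_iff_rpow_le (by norm_num) hVp]
    simpa using hV0
  set x : ℝ := (1 / 4 : ℝ) ^ q with hx
  have hx0 : 0 < x := by positivity
  have hx1 : x ≤ 1 := by
    rw [hx]
    exact pow_le_one₀ (by norm_num) (by norm_num)
  have h1 : (1 - x) ^ s ≤ Real.exp (-(x * s)) := by
    have h2 : (1 - x) ^ s ≤ (Real.exp (-x)) ^ s :=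
      pow_le_pow_left₀ (by linarith) (Real.one_sub_le_exp_neg x) s
    rw [← Real.exp_nat_mul] at h2
    rw [show -(x * (s : ℝ)) = (s : ℝ) * -x by ring]
    exact h2
  have hVq : (0 : ℝ) < (V : ℝ) * q := by positivity
  have h3 : (1 : ℝ) ≤ 3 * ((V : ℝ) * q) ^ m * Real.exp (-(x * s)) :=
    h.trans (mul_le_mul_of_nonneg_left h1 (by positivity))
  have h4 : Real.exp (x * s) ≤ 3 * ((V : ℝ) * q) ^ m := by
    have h5 : Real.exp (x * s) * 1 ≤
        Real.exp (x * s) * (3 * ((V : ℝ) * q) ^ m * Real.exp (-(x * s))) :=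
      mul_le_mul_of_nonneg_left h3 (Real.exp_pos _).le
    have h6 : Real.exp (x * s) * Real.exp (-(x * s)) = 1 := by
      rw [← Real.exp_add, add_neg_cancel, Real.exp_zero]
    have h7 : Real.exp (x * s) * (3 * ((V : ℝ) * q) ^ m * Real.exp (-(x * s))) =
        3 * ((V : ℝ) * q) ^ m * (Real.exp (x * s) * Real.exp (-(x * s))) := by ring
    rw [h7, h6, mul_one, mul_one] at h5
    exact h5
  have h7 : x * s ≤ Real.log 3 + m * (Real.log V + Real.log q) := by
    have h8 := (Real.le_log_iff_exp_le (by positivity)).2 h4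
    rw [Real.log_mul (by norm_num) (by positivity), Real.log_pow,
      Real.log_mul hVp.ne' hqp.ne'] at h8
    exact h8
  have h9 : Real.log 3 ≤ 2 * Real.log V := by
    have h10 : Real.log 3 ≤ Real.log 4 := Real.log_le_log (by norm_num) (by norm_num)
    have h11 : Real.log 4 = 2 * Real.log 2 := by
      rw [show (4 : ℝ) = 2 ^ 2 by norm_num, Real.log_pow]
      norm_num
    linarith
  have hm' : (1 : ℝ) ≤ m := by exact_mod_cast hm
  have hlq : Real.log q ≤ k - 1 := by
    have h10 : Real.log q ≤ q - 1 := Real.log_le_sub_one_of_pos hqp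
    linarith
  have hlq0 : 0 ≤ Real.log q := Real.log_nonneg hqR
  have h12 : x * s ≤ 2 * k * m * Real.logb 2 V := by
    have h13 : Real.log 3 + m * (Real.log V + Real.log q) ≤
        m * (3 * Real.log V + Real.log q) := by nlinarith
    have h14 : 3 * Real.log V + Real.log q ≤ 2 * k * Real.logb 2 V := by
      have h15 : 3 * Real.log V ≤ (21 / 10) * Real.logb 2 V := by
        rw [hL]
        nlinarith
      have h16 : Real.log q ≤ (k - 1) * Real.logb 2 V := by nlinarith
      nlinarith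
    have h17 : (m : ℝ) * (3 * Real.log V + Real.log q) ≤ m * (2 * k * Real.logb 2 V) :=
      mul_le_mul_of_nonneg_left h14 (by positivity)
    have h18 : (m : ℝ) * (2 * k * Real.logb 2 V) = 2 * k * m * Real.logb 2 V := by ring
    linarith
  have h15 : x * 4 ^ q = 1 := by
    rw [hx, one_div, inv_pow, inv_mul_cancel₀ (by positivity)]
  calc (s : ℝ) = (x * s) * 4 ^ q := by
        rw [mul_right_comm, h15, one_mul]
    _ ≤ 2 * k * m * Real.logb 2 V * 4 ^ q := mul_le_mul_of_nonneg_right h12 (by positivity)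

end S38

open S38

/-- row FIN12 -/
theorem st_FIN12 (hA : ST_ATOM2) (hE : ST_EMB) (hC : ST_COMB2) : ST_FIN12 := by
  intro n V T w R q B F hn hR hq1 hqk hFc hcomp hreads hF hw1 hwT hV
  obtain ⟨hk5, hN1, hN2⟩ := kk_spec hn
  have ha1 : 1 ≤ naF F := naF_pos hn F
  have hTm : T ≤ (T / w + 1) * w := by
    have h1 := Nat.div_add_mod T w
    have h2 := Nat.mod_lt T (show 0 < w by omega)
    rw [add_mul, one_mul, mul_comm (T / w)]
    omega
  have hmT : (T / w + 1) * w ≤ 2 * T := by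
    have h1 := Nat.div_mul_le_self T w
    rw [add_mul, one_mul]
    omega
  have hm1 : 1 ≤ T / w + 1 := Nat.le_add_left 1 _
  have hA' := fun s => hA n (2 ^ kk n) R q s F (by omega) (by omega) hq1
    (fun X hX => by
      have h1 := hF X hX
      have h2 : 4 * (2 * R * X.card) = 8 * R * X.card := by ring
      omega) hFc
  have hC' := fun s => hC n V T w (T / w + 1) q s B
  generalize T / w + 1 = m at *
  generalize naF F = a at *
  generalize hkdef : kk n = k at *
  -- real facts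
  have hnR : (64 : ℝ) ≤ n := by exact_mod_cast hn
  have hVR : (2 : ℝ) ≤ V := by exact_mod_cast hV
  have hL1 : (1 : ℝ) ≤ Real.logb 2 V := by
    rw [Real.le_logb_iff_rpow_le (by norm_num) (by linarith)]
    simpa using hVR
  have hkl : (k : ℝ) ≤ Real.logb 2 n := by
    have h1 : ((Nat.log 2 n : ℕ) : ℝ) ≤ Real.logb 2 n := by
      have := Real.natLog_le_logb n 2
      exact_mod_cast this
    have h2 : k ≤ Nat.log 2 n := by
      rw [← hkdef]
      exact Nat.sub_le _ _
    have h3 : (k : ℝ) ≤ (Nat.log 2 n : ℕ) := by exact_mod_cast h2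
    linarith
  have hk5R : (5 : ℝ) ≤ k := by exact_mod_cast hk5
  have hN2R : (n : ℝ) ≤ 4 * 2 ^ k := by exact_mod_cast hN2.le
  have haR : (1 : ℝ) ≤ a := by exact_mod_cast ha1
  have hmR : (1 : ℝ) ≤ m := by exact_mod_cast hm1
  have hwR : (1 : ℝ) ≤ w := by exact_mod_cast hw1
  have hwTR : (w : ℝ) ≤ T := by exact_mod_cast hwT
  have hmwT : (m : ℝ) * w ≤ 2 * T := by exact_mod_cast hmT
  have hT0 : (0 : ℝ) ≤ T := Nat.cast_nonneg T
  have h4q : (1 : ℝ) ≤ 4 ^ q := one_le_pow₀ (by norm_num)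
  have hℓ : (k : ℝ) ^ 3 ≤ Real.logb 2 n ^ 3 := pow_le_pow_left₀ (by linarith) hkl 3
  have hmain : (n : ℝ) * w ≤ 192 * ((T : ℝ) * Real.logb 2 V * (a : ℝ)) *
      (4 ^ q * (k : ℝ) ^ 3) := by
    obtain ⟨s, hs⟩ : ∃ s, s = 2 ^ k / (2 * a * k ^ 2) := ⟨_, rfl⟩
    have hden : 0 < 2 * a * k ^ 2 := by positivity
    have hs1 : s * (2 * a * k ^ 2) ≤ 2 ^ k := by
      rw [hs]
      exact Nat.div_mul_le_self _ _
    have hs2 : 2 ^ k < (s + 1) * (2 * a * k ^ 2) := by
      rw [hs, mul_comm]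
      exact Nat.lt_mul_div_succ _ hden
    have hs2R : (2 : ℝ) ^ k ≤ (s + 1) * (2 * a * k ^ 2) := by exact_mod_cast hs2.le
    by_cases hs0 : s = 0
    · rw [hs0] at hs2R
      have h1 : (n : ℝ) ≤ 8 * (a * k ^ 2) := by
        have : (n : ℝ) ≤ 4 * ((((0 : ℕ) : ℝ) + 1) * (2 * a * k ^ 2)) := by linarith
        rw [Nat.cast_zero] at this
        linarith
      have h2 : (n : ℝ) * w ≤ (8 * (a * k ^ 2)) * T :=
        mul_le_mul h1 hwTR (by linarith) (by positivity)
      have h3 : (1 : ℝ) ≤ Real.logb 2 V * 4 ^ q * k := by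
        have : (1 : ℝ) ≤ Real.logb 2 V * 4 ^ q := by nlinarith
        nlinarith
      have h7 : (0 : ℝ) ≤ (T : ℝ) * (a * k ^ 2) := by positivity
      have h5 : (T : ℝ) * (a * k ^ 2) * 1 ≤ (T : ℝ) * (a * k ^ 2) *
          (Real.logb 2 V * 4 ^ q * k) := mul_le_mul_of_nonneg_left h3 h7
      have h6 : 192 * ((T : ℝ) * Real.logb 2 V * (a : ℝ)) * (4 ^ q * (k : ℝ) ^ 3) =
          192 * ((T : ℝ) * (a * k ^ 2) * (Real.logb 2 V * 4 ^ q * k)) := by ring
      rw [h6]
      nlinarith
    · have hs3 : 1 ≤ s := by omega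
      have hqs : q * s * (2 * a) ≤ 2 ^ k := by
        calc q * s * (2 * a) ≤ k * s * (2 * a) :=
              Nat.mul_le_mul_right _ (Nat.mul_le_mul_right _ hqk)
          _ ≤ k ^ 2 * s * (2 * a) := by
              refine Nat.mul_le_mul_right _ (Nat.mul_le_mul_right _ ?_)
              rw [pow_two]
              exact Nat.le_mul_of_pos_left k (by omega)
          _ = s * (2 * a * k ^ 2) := by ring
          _ ≤ 2 ^ k := hs1
      obtain ⟨e, jj, heinj, heN, heX⟩ := hA' s hqs
      have hsL : s ≤ LL n := by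
        unfold LL
        rw [hkdef, Nat.le_div_iff_mul_le (by positivity)]
        refine le_trans ?_ hs1
        refine Nat.mul_le_mul_left _ ?_
        exact Nat.le_mul_of_pos_left _ (by omega)
      have hqs2 : q * s < 2 ^ k := by
        have h1 : q * s * 2 ≤ q * s * (2 * a) := Nat.mul_le_mul_left _ (by omega)
        have h2 : 0 < q * s := Nat.mul_pos (by omega) (by omega)
        omega
      obtain ⟨io, hio1, hio2⟩ := hE n q s e hn hq1
        (by rw [hkdef]; exact hqk) hsL (by rw [hkdef]; exact hqs2) heinj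
        (fun p => by rw [hkdef]; exact heN p)
      have hmiss : ∀ u, ∀ i < m, ∃ j : Fin q, ∀ t x, t < T → t / w = i →
          B.lab (B.st (io u) t) = some x → ∀ l, x ≠ e (j, l) := by
        intro u i _
        obtain ⟨X, hX, hXr⟩ := hreads (io u) i
        refine ⟨jj X, ?_⟩
        intro t x ht hti hlab l hxe
        have h1 := hXr t x ht hti hlab
        rw [hxe] at h1
        exact heX X hX l h1
      have h1 := hC' s e io hq1 hw1 hm1 hTm hmiss hio1
        (fun u => by rw [hcomp (io u)]; exact hio2 u)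
      have h2 := logb_bound2 hV hm1 hq1 hqk hk5 h1
      have hs3R : (1 : ℝ) ≤ s := by exact_mod_cast hs3
      have h3 : (2 : ℝ) ^ k ≤ 2 * s * (2 * a * k ^ 2) := by
        refine hs2R.trans (mul_le_mul_of_nonneg_right (by linarith) (by positivity))
      have h4 : (n : ℝ) ≤ 16 * s * (a * k ^ 2) := by
        have : (n : ℝ) ≤ 4 * (2 * s * (2 * a * k ^ 2)) := by linarith
        linarith
      have h5 : (16 * (s : ℝ)) * (a * k ^ 2) ≤
          (16 * (2 * k * m * Real.logb 2 V * 4 ^ q)) * (a * k ^ 2) :=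
        mul_le_mul_of_nonneg_right (by linarith) (by positivity)
      have h6 : (n : ℝ) ≤ 32 * m * (4 ^ q * Real.logb 2 V * (a * k ^ 3)) := by
        have h7 := h4.trans h5
        have h8 : (16 * (2 * (k : ℝ) * m * Real.logb 2 V * 4 ^ q)) * (a * k ^ 2) =
            32 * m * (4 ^ q * Real.logb 2 V * (a * k ^ 3)) := by ring
        rw [h8] at h7
        exact h7
      have h7 : (n : ℝ) * w ≤ (32 * m * (4 ^ q * Real.logb 2 V * (a * k ^ 3))) * w :=
        mul_le_mul_of_nonneg_right h6 (by linarith)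
      have h8 : (32 * (m : ℝ) * (4 ^ q * Real.logb 2 V * (a * k ^ 3))) * w =
          32 * (4 ^ q * Real.logb 2 V * (a * k ^ 3)) * (m * w) := by ring
      have hP : (0 : ℝ) ≤ (4 : ℝ) ^ q * Real.logb 2 V * (a * k ^ 3) := by positivity
      have h9 : 32 * ((4 : ℝ) ^ q * Real.logb 2 V * (a * k ^ 3)) * (m * w) ≤
          32 * (4 ^ q * Real.logb 2 V * (a * k ^ 3)) * (2 * T) :=
        mul_le_mul_of_nonneg_left hmwT (by positivity)
      have h10 : (0 : ℝ) ≤ ((4 : ℝ) ^ q * Real.logb 2 V * (a * k ^ 3)) * T :=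
        mul_nonneg hP hT0
      calc (n : ℝ) * w ≤ 32 * (4 ^ q * Real.logb 2 V * (a * k ^ 3)) * (2 * T) := by
            rw [h8] at h7
            exact h7.trans h9
        _ = 64 * (((4 : ℝ) ^ q * Real.logb 2 V * (a * k ^ 3)) * T) := by ring
        _ ≤ 192 * (((4 : ℝ) ^ q * Real.logb 2 V * (a * k ^ 3)) * T) := by linarith
        _ = _ := by ring
  refine hmain.trans ?_
  have hpos : (0 : ℝ) ≤ 192 * ((T : ℝ) * Real.logb 2 V * (a : ℝ)) := by positivity
  refine mul_le_mul_of_nonneg_left ?_ hpos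
  exact mul_le_mul_of_nonneg_left hℓ (by positivity)

end Pool.Helper52.BP
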